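import Pool.Agent.H76.PS.Defs

/-! Project PS, job A1: the kernel of the restriction to a subgroup of index two. -/

set_option autoImplicit false

namespace Pool.Agent.K7.H64.PS

open Pool.Agent.H76.PS

open Classical in
lemma lc_ext {G : Type} [Group G] [TopologicalSpace G] [IsTopologicalGroup G] {Q : Subgroup G}
    (hQ : IsOpen (Q : Set G)) {a : Q → ZMod 2} (ha : IsLocallyConstant a) :
    IsLocallyConstant (fun g : G => if h : g ∈ Q then a ⟨g, h⟩ else 0) := by
  rw [IsLocallyConstant.iff_exists_open]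
  intro x
  by_cases hx : x ∈ Q
  · obtain ⟨U, hU, hxU, hc⟩ := (IsLocallyConstant.iff_exists_open a).1 ha ⟨x, hx⟩
    obtain ⟨V, hV, rfl⟩ := isOpen_induced_iff.1 hU
    refine ⟨V ∩ Q, hV.inter hQ, ⟨hxU, hx⟩, ?_⟩
    rintro y ⟨hyV, hyQ⟩
    have hyQ' : y ∈ Q := hyQ
    simp only [hx, hyQ', dif_pos]
    exact hc ⟨y, hyQ'⟩ hyV
  · refine ⟨(Q : Set G)ᶜ, (Q.isClosed_of_isOpen hQ).isOpen_compl, hx, ?_⟩
    intro y hy
    have hy' : y ∉ Q := hy
    simp only [hx, hy', dif_neg, not_false_iff]

lemma lc_chi {G : Type} [Group G] [TopologicalSpace G] [IsTopologicalGroup G] {Q : Subgroup G}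
    (hQ : IsOpen (Q : Set G)) : IsLocallyConstant (chi Q) := by
  rw [IsLocallyConstant.iff_exists_open]
  intro x
  by_cases hx : x ∈ Q
  · refine ⟨Q, hQ, hx, ?_⟩
    intro y hy
    have hy' : y ∈ Q := hy
    simp only [chi, hx, hy', if_true]
  · refine ⟨(Q : Set G)ᶜ, (Q.isClosed_of_isOpen hQ).isOpen_compl, hx, ?_⟩
    intro y hy
    have hy' : y ∉ Q := hy
    simp only [chi, hx, hy', if_false]

theorem stA1 : StA1 := by
  classical
  intro G _ _ _ Q hQ h2 e he hr
  obtain ⟨hlc, hco⟩ := he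
  obtain ⟨a, ha, had⟩ := hr
  have two : (2 : ZMod 2) = 0 := rfl
  obtain ⟨t, ht⟩ : ∃ t, t ∉ Q := by
    by_contra hcon
    push Not at hcon
    have : Q = ⊤ := by
      rw [eq_top_iff]
      intro g _
      exact hcon g
    rw [this, Subgroup.index_top] at h2
    omega
  have hmem : ∀ {x y : G}, x * y ∈ Q ↔ (x ∈ Q ↔ y ∈ Q) := fun {x y} =>
    Subgroup.mul_mem_iff_of_index_two h2
  have hti : t⁻¹ ∉ Q := fun h => ht (by simpa using Q.inv_mem h)
  set A : G → ZMod 2 := fun g => if h : g ∈ Q then a ⟨g, h⟩ else 0 with hA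
  have hAlc : IsLocallyConstant A := lc_ext hQ ha
  have hAQ : ∀ {x y : G}, x ∈ Q → y ∈ Q → e x y = A x + A y + A (x * y) := by
    intro x y hx hy
    have hxy := Q.mul_mem hx hy
    simp only [hA, hx, hy, hxy, dif_pos]
    exact had ⟨x, hx⟩ ⟨y, hy⟩
  have hAn : ∀ {x : G}, x ∉ Q → A x = 0 := by
    intro x hx
    simp only [hA, hx, dif_neg, not_false_iff]
  set f : G → ZMod 2 := fun g => A g + chi Q g * (e (g * t⁻¹) t + A (g * t⁻¹)) with hf
  have hflc : IsLocallyConstant f := by
    refine hAlc.add ((lc_chi hQ).mul (IsLocallyConstant.add ?_ ?_))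
    · exact hlc.comp_continuous (f := fun g : G => (g * t⁻¹, t))
        ((continuous_mul_const _).prodMk continuous_const)
    · exact hAlc.comp_continuous (continuous_mul_const _)
  have c0 : ∀ {x : G}, x ∈ Q → chi Q x = 0 := fun {x} hx => by simp only [chi, hx, if_true]
  have c1 : ∀ {x : G}, x ∉ Q → chi Q x = 1 := fun {x} hx => by simp only [chi, hx, if_false]
  have f0 : ∀ {x : G}, x ∈ Q → f x = A x := by
    intro x hx
    simp only [hf, c0 hx, zero_mul, add_zero]
  have f1 : ∀ {x : G}, x ∈ Q → f (x * t) = e x t + A x := by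
    intro x hx
    have h1 : x * t ∉ Q := by rw [hmem]; tauto
    simp only [hf, c1 h1, hAn h1, mul_inv_cancel_right, one_mul, zero_add]
  set E : G → G → ZMod 2 := fun x y => e x y + f x + f y + f (x * y) with hE
  have hEc : ∀ x y z, E y z + E (x * y) z + E x (y * z) + E x y = 0 := by
    intro x y z
    have h := hco x y z
    simp only [hE, mul_assoc] at h ⊢
    linear_combination h + (f y + f z + f (y * z) + f (x * y) + f (x * (y * z)) + f x) * two
  have hV : ∀ q ∈ Q, ∀ g, E q g = 0 := by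
    intro q hq g
    by_cases hg : g ∈ Q
    · simp only [hE]
      rw [hAQ hq hg, f0 hq, f0 hg, f0 (Q.mul_mem hq hg)]
      linear_combination (A q + A g + A (q * g)) * two
    · have hq' : g * t⁻¹ ∈ Q := by rw [hmem]; tauto
      obtain ⟨q', rfl⟩ : ∃ q', g = q' * t := ⟨g * t⁻¹, by group⟩
      rw [mul_inv_cancel_right] at hq'
      simp only [hE]
      rw [← mul_assoc, f0 hq, f1 hq', f1 (Q.mul_mem hq hq')]
      have h := hco q q' t
      rw [hAQ hq hq'] at h
      linear_combination h
  have hVl : ∀ q ∈ Q, ∀ g h, E (q * g) h = E g h := by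
    intro q hq g h
    have h1 := hEc q g h
    rw [hV q hq, hV q hq, add_zero, add_zero] at h1
    linear_combination h1 - E g h * two
  have hEt : ∀ g h, E g h = chi Q g * E t h := by
    intro g h
    by_cases hg : g ∈ Q
    · rw [c0 hg, zero_mul, hV g hg]
    · have hq' : g * t⁻¹ ∈ Q := by rw [hmem]; tauto
      rw [c1 hg, one_mul, ← hVl _ hq' t h, inv_mul_cancel_right]
  refine ⟨E t, ⟨?_, ?_⟩, f, hflc, ?_⟩
  · refine ((IsLocallyConstant.add ?_ (IsLocallyConstant.const _)).add hflc).add ?_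
    · exact hlc.comp_continuous (f := fun g : G => (t, g)) (continuous_const.prodMk continuous_id)
    · exact hflc.comp_continuous (continuous_const_mul _)
  · intro x y
    have h1 := hEc t x y
    rw [hEt x y, hEt (t * x) y] at h1
    have h3 : chi Q x + chi Q (t * x) = 1 := by
      by_cases hx : x ∈ Q
      · rw [c0 hx, c1 (by rw [hmem]; tauto), zero_add]
      · rw [c1 hx, c0 (by rw [hmem]; tauto), add_zero]
    linear_combination h1 - E t y * h3 - (E t x + E t y) * two
  · intro x y
    have h1 := hEt x y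
    simp only [Pi.add_apply, cup]
    rw [← h1]
    simp only [hE]
    linear_combination (e x y) * two

end Pool.Agent.K7.H64.PS
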